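import Pool.Agent.Lib.MP_796ce4_ag.ZQ.AMain

/-!
Colliot-Thelene's question for all varieties that are covered by varieties with a regular
projective model. A variety with a regular model is covered by itself in degree one
(`RegModel.covered`), and then `T` is finite.
-/

namespace Pool.Agent.Results.MP_796ce4_ag.RegularCover

open Pool.Agent.ZeroCyc

/-- The quotient of `A` by its maximal divisible subgroup is isomorphic to `ℤ_p ^ n × T` with
`d T` finite. -/
def ZpBdd (p : ℕ) [Fact p.Prime] (d : ℕ) (A : Type) [AddCommGroup A] : Prop :=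
  ∃ (n : ℕ) (T : Type) (_ : AddCommGroup T), (Set.range fun t : T => d • t).Finite ∧
    Nonempty ((A ⧸ maxDiv A) ≃+ (Fin n → ℤ_[p]) × T)

theorem result (p : ℕ) [Fact p.Prime] (K : Type) [Field K] [Algebra ℚ_[p] K]
    [FiniteDimensional ℚ_[p] K] [Algebra ℤ_[p] K] [IsScalarTower ℤ_[p] ℚ_[p] K] (N : ℕ)
    (J : Ideal (MvPolynomial (Fin (N + 1)) K))
    (hJ : ∀ G ∈ J, ∀ n, MvPolynomial.homogeneousComponent n G ∈ J) (S : Finset ℕ)
    (hS : ∀ e ∈ S, Covered p J e) (hd : S.gcd id ≠ 0) :
    ZpBdd p (S.gcd id) (A0 J (AlgebraicClosure K)) :=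
  final_cov p K J hJ S hS hd

end Pool.Agent.Results.MP_796ce4_ag.RegularCover
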